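import Pool.Agent.Lib.MP_28303a_al.WR.Mc

/-! # Interface of the theorem on `L wr ℤ`

Every module is a statement `XStatement : Prop`; it is to be proved as
`theorem x (h : UsedStatement) ... : XStatement`.  Proofs: `Paper.md`. -/

set_option autoImplicit false
set_option linter.unusedSectionVars false

namespace Pool.Agent.NegK

universe u v w

open Matrix MonoidAlgebra
open scoped Pointwise

/-! ## Part 1. The boundary map `GL(A[t, t⁻¹]) → K₀(A)` -/

section Boundary

variable {A : Type u} [Ring A]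

/-- Right multiplication of row vectors by a matrix, as a left linear map over `A`. -/
noncomputable def rmul {ι κ : Type} [Fintype ι] (α : Matrix ι κ (LaurentPolynomial A)) :
    (ι → LaurentPolynomial A) →ₗ[A] (κ → LaurentPolynomial A) where
  toFun y := y ᵥ* α
  map_add' x y := Matrix.add_vecMul α x y
  map_smul' r y := by
    have h : ∀ (z : LaurentPolynomial A), r • z = LaurentPolynomial.C r * z := by
      intro z
      exact (LaurentPolynomial.smul_eq_C_mul r z)
    ext1 j
    simp only [Matrix.vecMul, dotProduct, Pi.smul_apply, RingHom.id_apply, h, mul_assoc,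
      Finset.mul_sum]

variable (A) in
/-- The rows whose entries have degrees `≥ m`. -/
def Ge (ι : Type) (m : ℤ) : Submodule A (ι → LaurentPolynomial A) where
  carrier := {y | ∀ i, ∀ c < m, (y i).coeff c = 0}
  zero_mem' := fun i c _ => rfl
  add_mem' := by
    intro x y hx hy i c hc
    show (x i + y i).coeff c = 0
    rw [AddMonoidAlgebra.coeff_add, Finsupp.add_apply, hx i c hc, hy i c hc, add_zero]
  smul_mem' := by
    intro r x hx i c hc
    show (r • x i).coeff c = 0
    rw [AddMonoidAlgebra.coeff_smul, Finsupp.smul_apply, hx i c hc, smul_zero]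

/-- All entries of the matrix have degrees `≥ -m`. -/
def DegGe {ι κ : Type} (m : ℕ) (α : Matrix ι κ (LaurentPolynomial A)) : Prop :=
  ∀ i j, ∀ c : ℤ, c < -m → (α i j).coeff c = 0

open Classical in
/-- The boundary of an invertible matrix `α`: the class of the lattice `Ge 0` minus the class of
the lattice `Ge 0 * α`. -/
noncomputable def ind {ι : Type} [Fintype ι] (α : Matrix ι ι (LaurentPolynomial A)) : K0 A :=
  if h : ∃ m : ℕ, (Ge A ι 0).map (rmul α) ≤ Ge A ι (-m) then
    rel (Ge A ι (-(h.choose : ℕ))) ((Ge A ι 0).map (rmul α)) -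
      rel (Ge A ι (-(h.choose : ℕ))) (Ge A ι 0)
  else 0

/-- First factor of the explicit idempotent. -/
noncomputable def tU {ι : Type} (α : Matrix ι ι (LaurentPolynomial A)) (m K : ℕ) :
    Matrix (ι × Fin (m + K)) (ι × Fin (m + K)) A :=
  fun x y => (α x.1 y.1).coeff ((K : ℤ) + (y.2 : ℕ) - (x.2 : ℕ))

/-- Second factor of the explicit idempotent. -/
noncomputable def tV {ι : Type} (β : Matrix ι ι (LaurentPolynomial A)) (m K : ℕ) :
    Matrix (ι × Fin (m + K)) (ι × Fin (m + K)) A :=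
  fun x y => (β x.1 y.1).coeff ((y.2 : ℕ) - (K : ℤ) - (x.2 : ℕ))

end Boundary

/-- GEQ (100 lines). The quotients of the modules `Ge`. -/
def GeqStatement : Prop :=
  ∀ (A : Type u) [Ring A] (ι : Type) [Fintype ι] [DecidableEq ι],
    (∀ m : ℤ, Module.Projective A ((ι → LaurentPolynomial A) ⧸ Ge A ι m)) ∧
    (∀ a b : ℤ, Module.Finite A ((Ge A ι a).map (Ge A ι b).mkQ)) ∧
    (∀ (a : ℤ) (m : ℕ), rel (Ge A ι a) (Ge A ι (a + m)) =
      m • mcls (1 : Matrix ι ι A) (one_mul 1))

/-- COK (150 lines). `Ge (-m) / Ge 0 * α` is represented by the idempotent `tU * tV`. -/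
def CokStatement : Prop :=
  ∀ (A : Type u) [Ring A] (ι : Type) [Fintype ι] [DecidableEq ι]
    (α β : Matrix ι ι (LaurentPolynomial A)) (m K : ℕ), α * β = 1 → β * α = 1 →
    DegGe m α → DegGe K β →
    ∃ h : (tU α m K * tV β m K) * (tU α m K * tV β m K) = tU α m K * tV β m K,
      rel (Ge A ι (-m)) ((Ge A ι 0).map (rmul α)) = mcls (tU α m K * tV β m K) h

/-- INDA (150 lines, uses GEQ). `ind` may be computed with any `m`; quotients by lattices are
projective; `ind` is additive on products. -/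
def IndaStatement : Prop :=
  ∀ (A : Type u) [Ring A] (ι : Type) [Fintype ι] [DecidableEq ι],
    (∀ (α : Matrix ι ι (LaurentPolynomial A)) (m : ℕ), IsUnit α → DegGe m α →
      ind α = rel (Ge A ι (-m)) ((Ge A ι 0).map (rmul α)) - rel (Ge A ι (-m)) (Ge A ι 0)) ∧
    (∀ α β : Matrix ι ι (LaurentPolynomial A), IsUnit α → IsUnit β →
      ind (α * β) = ind α + ind β)

/-- INDB (120 lines, uses GEQ, COK, INDA). Block sums, renaming of indices. -/
def IndbStatement : Prop :=
  ∀ (A : Type u) [Ring A] (ι κ : Type) [Fintype ι] [DecidableEq ι] [Fintype κ] [DecidableEq κ],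
    (∀ (α : Matrix ι ι (LaurentPolynomial A)) (β : Matrix κ κ (LaurentPolynomial A)), IsUnit α →
      IsUnit β → ind (fromBlocks α 0 0 β) = ind α + ind β) ∧
    (∀ (σ : κ ≃ ι) (α : Matrix ι ι (LaurentPolynomial A)), IsUnit α →
      ind (α.submatrix σ σ) = ind α)

/-- INDU (100 lines, uses INDA). Block unipotent matrices; constant matrices. -/
def InduStatement : Prop :=
  ∀ (A : Type u) [Ring A] (ι κ : Type) [Fintype ι] [DecidableEq ι] [Fintype κ] [DecidableEq κ],
    (∀ x : Matrix ι κ (LaurentPolynomial A),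
      ind (fromBlocks (1 : Matrix ι ι (LaurentPolynomial A)) x 0 1) = 0) ∧
    (∀ x : Matrix κ ι (LaurentPolynomial A),
      ind (fromBlocks (1 : Matrix ι ι (LaurentPolynomial A)) 0 x 1) = 0) ∧
    (∀ α : Matrix ι ι A, IsUnit α → ind (α.map LaurentPolynomial.C) = 0)

/-- INDN (100 lines, uses GEQ, COK, INDA). Naturality, and the value on `1 - p + p t`. -/
def IndnStatement : Prop :=
  (∀ (A B : Type u) [Ring A] [Ring B] (f : A →+* B) (ι : Type) [Fintype ι] [DecidableEq ι]
    (α : Matrix ι ι (LaurentPolynomial A)), IsUnit α →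
    ind (α.map (lmap f)) = K0.map f (ind α)) ∧
  (∀ (A : Type u) [Ring A] (ι : Type) [Fintype ι] [DecidableEq ι] (p : Matrix ι ι A)
    (hp : p * p = p),
    IsUnit (1 - p.map LaurentPolynomial.C +
      p.map (fun a => LaurentPolynomial.C a * LaurentPolynomial.T 1) :
        Matrix ι ι (LaurentPolynomial A)) ∧
    ind (1 - p.map LaurentPolynomial.C +
      p.map (fun a => LaurentPolynomial.C a * LaurentPolynomial.T 1)) = mcls p hp)

/-- The boundary maps of all rings. -/
structure BdSys where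
  δ : (B : Type u) → [Ring B] → Det1 (LaurentPolynomial B) (K0 B)
  nat : ∀ {A B : Type u} [Ring A] [Ring B] (f : A →+* B) {ι : Type} [Fintype ι] [DecidableEq ι]
    (α : Matrix ι ι (LaurentPolynomial A)), IsUnit α →
    (δ B).val (α.map (lmap f)) = K0.map f ((δ A).val α)
  const : ∀ {B : Type u} [Ring B] {ι : Type} [Fintype ι] [DecidableEq ι] (α : Matrix ι ι B),
    IsUnit α → (δ B).val (α.map LaurentPolynomial.C) = 0
  proj : ∀ {B : Type u} [Ring B] {ι : Type} [Fintype ι] [DecidableEq ι] (p : Matrix ι ι B)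
    (hp : p * p = p),
    IsUnit (1 - p.map LaurentPolynomial.C +
      p.map (fun a => LaurentPolynomial.C a * LaurentPolynomial.T 1) :
        Matrix ι ι (LaurentPolynomial B)) ∧
    (δ B).val (1 - p.map LaurentPolynomial.C +
      p.map (fun a => LaurentPolynomial.C a * LaurentPolynomial.T 1)) = mcls p hp

/-- BD (helper66; from INDA, INDB, INDU, INDN). -/
def BdStatement : Prop := Nonempty BdSys.{u}

/-! ## Part 2. Decomposition of invertible matrices over `k[Γ]`, `Γ → ℤ` -/

/-- LIN (150 lines). Higman's trick: reduction to matrices of degrees `0` and `1`. -/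
def LinStatement : Prop :=
  ∀ (Γ : Type u) [Group Γ] (dg : Γ →* Multiplicative ℤ) (s : Γ),
    dg s = Multiplicative.ofAdd 1 → ∀ (k : Type u) [Ring k] (M : Type u) [AddCommGroup M]
    (χ : Det1 (MonoidAlgebra k Γ) M),
    (∀ (ι : Type) [Fintype ι] [DecidableEq ι], χ.val (gmat (k := k) ι s) = 0) →
    ∀ (ι : Type) [Fintype ι] [DecidableEq ι] (α : Matrix ι ι (MonoidAlgebra k Γ)), IsUnit α →
    ∃ (κ : Type) (_ : Fintype κ) (_ : DecidableEq κ) (A : Matrix κ κ (MonoidAlgebra k Γ)),
      IsUnit A ∧ MSupp {g | dg g = 1 ∨ dg g = Multiplicative.ofAdd 1} A ∧ χ.val A = χ.val α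

/-- GRD (120 lines). Homogeneous components of an invertible matrix and of its inverse. -/
def GrdStatement : Prop :=
  ∀ (Γ : Type u) [Group Γ] (dg : Γ →* Multiplicative ℤ) (k : Type u) [Ring k]
    (ι : Type) [Fintype ι] [DecidableEq ι] (A : Matrix ι ι (MonoidAlgebra k Γ)), IsUnit A →
    MSupp {g | dg g = 1 ∨ dg g = Multiplicative.ofAdd 1} A →
    ∃ (a₀ a₁ : Matrix ι ι (MonoidAlgebra k Γ)) (b : ℤ → Matrix ι ι (MonoidAlgebra k Γ)) (J : ℕ),
      A = a₀ + a₁ ∧ MSupp {g | dg g = 1} a₀ ∧ MSupp {g | dg g = Multiplicative.ofAdd 1} a₁ ∧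
      (∀ j, MSupp {g | dg g = Multiplicative.ofAdd j} (b j)) ∧
      (∀ j : ℤ, (J : ℤ) < |j| → b j = 0) ∧
      (∀ j, a₀ * b j + a₁ * b (j - 1) = if j = 0 then 1 else 0) ∧
      (∀ j, b j * a₀ + b (j - 1) * a₁ = if j = 0 then 1 else 0)

/-- FAC (120 lines). Pure algebra: factorization of `a₀ + a₁`. -/
def FacStatement : Prop :=
  ∀ (M : Type u) [Ring M] (a₀ a₁ : M) (b : ℤ → M) (J : ℕ),
    (∀ j : ℤ, (J : ℤ) < |j| → b j = 0) →
    (∀ j, a₀ * b j + a₁ * b (j - 1) = if j = 0 then 1 else 0) →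
    (∀ j, b j * a₀ + b (j - 1) * a₁ = if j = 0 then 1 else 0) →
    (b (-1) * a₁) * (b (-1) * a₁) = b (-1) * a₁ ∧
    (a₁ * b (-1)) * (a₁ * b (-1)) = a₁ * b (-1) ∧
    (a₀ * (1 - b (-1) * a₁) + a₁ * (b (-1) * a₁)) * (b 0 + b (-1)) = 1 ∧
    (b 0 + b (-1)) * (a₀ * (1 - b (-1) * a₁) + a₁ * (b (-1) * a₁)) = 1 ∧
    a₀ + a₁ = (a₀ * (1 - b (-1) * a₁) + a₁ * (b (-1) * a₁)) *
      ((1 + b 0 * a₁) * (1 + b (-1) * a₀)) ∧
    IsNilpotent (b 0 * a₁) ∧ IsNilpotent (b (-1) * a₀)

/-- The homogeneous part of the decomposition. -/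
noncomputable def Hm {N Γ : Type u} [Group N] [Group Γ] (X : ZExt N Γ) {k : Type u} [Ring k]
    {ι : Type} [Fintype ι] [DecidableEq ι] (a₀ a₁ e : Matrix ι ι (MonoidAlgebra k N)) :
    Matrix ι ι (MonoidAlgebra k Γ) :=
  a₀.map (mdr k X.i) * (1 - e.map (mdr k X.i)) +
    a₁.map (mdr k X.i) * gmat ι X.s * e.map (mdr k X.i)

/-- DEC (150 lines, uses GRD, FAC). -/
def DecStatement : Prop :=
  ∀ (N Γ : Type u) [Group N] [Group Γ] (X : ZExt N Γ) (k : Type u) [Ring k] (ι : Type)
    [Fintype ι] [DecidableEq ι] (A : Matrix ι ι (MonoidAlgebra k Γ)), IsUnit A →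
    MSupp {g | X.dg g = 1 ∨ X.dg g = Multiplicative.ofAdd 1} A →
    ∃ (a₀ a₁ e : Matrix ι ι (MonoidAlgebra k N)) (he : e * e = e)
      (ν₁ ν₂ : Matrix ι ι (MonoidAlgebra k Γ)),
      K0.map (mdr k X.sh.toMonoidHom) (mcls e he) = mcls e he ∧
      IsUnit (Hm X a₀ a₁ e) ∧ A = Hm X a₀ a₁ e * ((1 + ν₁) * (1 + ν₂)) ∧
      IsNilpotent ν₁ ∧ IsNilpotent ν₂ ∧ MSupp {g | X.dg g = Multiplicative.ofAdd 1} ν₁ ∧
      MSupp {g | X.dg g = Multiplicative.ofAdd (-1)} ν₂

/-- HOM (200 lines). The homogeneous part is trivial if the class of `e` is constant. -/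
def HomStatement : Prop :=
  ∀ (N Γ : Type u) [Group N] [Group Γ] (X : ZExt N Γ) (k k₀ : Type u) [Ring k] [Ring k₀]
    (j : k₀ →+* k) (M : Type u) [AddCommGroup M] (χ : Det1 (MonoidAlgebra k Γ) M),
    (∀ (ι : Type) [Fintype ι] [DecidableEq ι] (α : Matrix ι ι (MonoidAlgebra k N)), IsUnit α →
      χ.val (α.map (mdr k X.i)) = 0) →
    (∀ (ι : Type) [Fintype ι] [DecidableEq ι] (p : Matrix ι ι k₀), p * p = p →
      χ.val (1 - p.map ((cst k Γ).comp j) + p.map ((cst k Γ).comp j) * gmat ι X.s) = 0) →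
    ∀ (ι : Type) [Fintype ι] [DecidableEq ι] (a₀ a₁ e : Matrix ι ι (MonoidAlgebra k N))
      (he : e * e = e), mcls e he ∈ (K0.map ((cst k N).comp j)).range →
      IsUnit (Hm X a₀ a₁ e) → χ.val (Hm X a₀ a₁ e) = 0

/-- SURJZ (200 lines, uses BD, LIN, DEC, HOM). -/
def SurjzStatement : Prop :=
  ∀ (N Γ : Type u) [Group N] [Group Γ] (X : ZExt N Γ) (k : Type u) [Ring k],
    (∀ (ι : Type) [Fintype ι] [DecidableEq ι] (e : Matrix ι ι (MonoidAlgebra (LaurentPolynomial k) N))
      (he : e * e = e), K0.map (mdr (LaurentPolynomial k) X.sh.toMonoidHom) (mcls e he) = mcls e he →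
      mcls e he ∈ (K0.map ((cst (LaurentPolynomial k) N).comp
        (LaurentPolynomial.C : k →+* LaurentPolynomial k))).range) →
    (∀ (S : BdSys.{u}) (ι : Type) [Fintype ι] [DecidableEq ι]
      (ν : Matrix ι ι (MonoidAlgebra (LaurentPolynomial k) Γ)), IsNilpotent ν →
      (MSupp {g | X.dg g = Multiplicative.ofAdd 1} ν ∨
        MSupp {g | X.dg g = Multiplicative.ofAdd (-1)} ν) →
      (S.δ (MonoidAlgebra k Γ)).val ((1 + ν).map (H64.swapEquiv k Γ)) ∈
        (K0.map (mdr k X.i)).range) →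
    Function.Surjective (K0.map (mdr k X.i))

/-! ## Part 3. The wreath product -/

/-- Elements of the wreath product of degree `d` whose first component is supported in
`[a, b)`. -/
def Win (L : Type u) [Group L] (a b d : ℤ) : Set (Wr L) :=
  {g | g.right = Multiplicative.ofAdd d ∧ ∀ i, (g.left : ℤ → L) i ≠ 1 → a ≤ i ∧ i < b}

open Classical in
/-- The homomorphism of `Bse L` which forgets the coordinates outside `T`. -/
noncomputable def cut (L : Type u) [Group L] (T : Set ℤ) : Bse L →* Bse L where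
  toFun x := ⟨fun i => if i ∈ T then (x : ℤ → L) i else 1, by
    refine x.2.subset fun i hi => ?_
    intro hc
    refine hi ?_
    show (if i ∈ T then (x : ℤ → L) i else 1) = 1
    rw [hc, ite_self]⟩
  map_one' := Subtype.ext (funext fun i => by
    show (if i ∈ T then (1 : L) else 1) = 1
    rw [ite_self])
  map_mul' x y := Subtype.ext (funext fun i => by
    show (if i ∈ T then (x : ℤ → L) i * (y : ℤ → L) i else 1) =
      (if i ∈ T then (x : ℤ → L) i else 1) * (if i ∈ T then (y : ℤ → L) i else 1)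
    split_ifs
    · rfl
    · rw [mul_one])

/-- RETR (80 lines). Shift invariant classes are constant. -/
def RetrStatement : Prop :=
  ∀ (L : Type u) [Group L] (k : Type u) [Ring k] (ι : Type) [Fintype ι] [DecidableEq ι]
    (e : Matrix ι ι (MonoidAlgebra k (Bse L))) (he : e * e = e),
    K0.map (mdr k (tr L 1).toMonoidHom) (mcls e he) = mcls e he →
    mcls e he ∈ (K0.map (cst k (Bse L))).range

/-- CYC (150 lines). Cyclic permutation of the factors of a nilpotent matrix. -/
def CycStatement : Prop :=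
  ∀ (G : Type u) [Group G] (k : Type u) [Ring k] (M : Type u) [AddCommGroup M]
    (χ : Det1 (MonoidAlgebra k G) M) (P S : Set G) (ι : Type) [Fintype ι] [DecidableEq ι]
    (ν : Matrix ι ι (MonoidAlgebra k G)), IsNilpotent ν → MSupp (P * S) ν →
    ∃ (κ : Type) (_ : Fintype κ) (_ : DecidableEq κ) (ν' : Matrix κ κ (MonoidAlgebra k G)),
      IsNilpotent ν' ∧ MSupp (S * P) ν' ∧ χ.val (1 + ν') = χ.val (1 + ν)

/-- SHR (150 lines, uses CYC). Nilpotent matrices of degree `± 1` can be concentrated on one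
coordinate. -/
def ShrStatement : Prop :=
  ∀ (L : Type u) [Group L] (k : Type u) [Ring k] (M : Type u) [AddCommGroup M]
    (χ : Det1 (MonoidAlgebra k (Wr L)) M) (d : ℤ), (d = 1 ∨ d = -1) →
    ∀ (ι : Type) [Fintype ι] [DecidableEq ι] (ν : Matrix ι ι (MonoidAlgebra k (Wr L))),
    IsNilpotent ν → MSupp {g | g.right = Multiplicative.ofAdd d} ν →
    ∃ (κ : Type) (_ : Fintype κ) (_ : DecidableEq κ) (ν' : Matrix κ κ (MonoidAlgebra k (Wr L))),
      IsNilpotent ν' ∧ MSupp (Win L 0 1 d) ν' ∧ χ.val (1 + ν') = χ.val (1 + ν)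

/-- FREEM (150 lines). A nilpotent matrix concentrated on one coordinate comes from a nilpotent
matrix over the group ring of a free group. -/
def FreemStatement : Prop :=
  ∀ (L : Type u) [Group L] (k : Type u) [Ring k] (d : ℤ), d ≠ 0 →
    ∀ (ι : Type) [Fintype ι] [DecidableEq ι] (ν : Matrix ι ι (MonoidAlgebra k (Wr L))),
    IsNilpotent ν → MSupp (Win L 0 1 d) ν →
    ∃ (m : ℕ) (φ : FreeGroup (Fin m) →* Wr L)
      (μ : Matrix ι ι (MonoidAlgebra k (FreeGroup (Fin m)))),
      IsNilpotent μ ∧ μ.map (mdr k φ) = ν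

/-- The conditions on the coefficient ring. -/
structure Adm (k : Type u) [Ring k] : Prop where
  laurent : Function.Surjective (K0.map (LaurentPolynomial.C : k →+* LaurentPolynomial k))
  free : ∀ m : ℕ, Function.Surjective (K0.map (cst k (FreeGroup (Fin m))))

/-- NILW (100 lines, uses SHR, FREEM). Boundaries of `1 + ν`. -/
def NilwStatement : Prop :=
  ∀ (L : Type u) [Group L] (k : Type u) [Ring k], Adm k → ∀ (S : BdSys.{u}) (ι : Type)
    [Fintype ι] [DecidableEq ι] (ν : Matrix ι ι (MonoidAlgebra (LaurentPolynomial k) (Wr L))),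
    IsNilpotent ν →
      (MSupp {g | (wrExt L).dg g = Multiplicative.ofAdd 1} ν ∨
        MSupp {g | (wrExt L).dg g = Multiplicative.ofAdd (-1)} ν) →
      (S.δ (MonoidAlgebra k (Wr L))).val ((1 + ν).map (H64.swapEquiv k (Wr L))) ∈
        (K0.map (cst k (Wr L))).range

/-- WSURJ (60 lines, uses SURJZ, RETR, NILW). -/
def WsurjStatement : Prop :=
  ∀ (L : Type u) [Group L] (k : Type u) [Ring k], Adm k →
    Function.Surjective (K0.map (mdr k (wrExt L).i))

/-! ## Part 4. The kernel, and negative K-groups -/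

/-- KERZ (400 lines). The kernel of `K₀(k[N]) → K₀(k[Γ])`, for every ring `k`. -/
def KerzStatement : Prop :=
  ∀ (N Γ : Type u) [Group N] [Group Γ] (X : ZExt N Γ) (k : Type u) [Ring k]
    (x : K0 (MonoidAlgebra k N)), K0.map (mdr k X.i) x = 0 →
    ∃ y, x = y - K0.map (mdr k X.sh.toMonoidHom) y

/-- PREG (400 lines). The polynomial ring of a regular ring is regular. -/
def PregStatement : Prop :=
  ∀ (R : Type u) [Ring R], RegularRing R → RegularRing (Polynomial R)

/-- PSWAP (100 lines). `k[t][G] ≃ k[G][t]`, naturally in `G`. -/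
def PswapStatement : Prop :=
  ∀ (k : Type u) [Ring k] (G H : Type u) [Group G] [Group H] (f : G →* H),
    ∃ (e₁ : MonoidAlgebra (Polynomial k) G ≃+* Polynomial (MonoidAlgebra k G))
      (e₂ : MonoidAlgebra (Polynomial k) H ≃+* Polynomial (MonoidAlgebra k H)),
      ∀ x, Polynomial.mapRingHom (mdr k f) (e₁ x) = e₂ (mdr (Polynomial k) f x)

/-- BASSEX (80 lines). Right exactness is inherited by Bass's construction. -/
def BassexStatement : Prop :=
  ∀ (F : RFun.{u}) (D B : Type u) [Ring D] [Ring B] (f : D →+* B) (σ : D →+* D),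
    Function.Surjective (F.hom (Polynomial.mapRingHom f)) →
    Function.Surjective (F.hom (lmap f)) →
    (∀ x, F.hom (lmap f) x = 0 → ∃ y, x = y - F.hom (lmap σ) y) →
    Function.Surjective (F.bass.hom f) ∧
    (∀ x, F.bass.hom f x = 0 → ∃ y, x = y - F.bass.hom σ y)

/-- EXN (150 lines, uses PREG, PSWAP, BASSEX, KERZ). Exactness for all `K_{-n}`. -/
def ExnStatement : Prop :=
  ∀ (N Γ : Type u) [Group N] [Group Γ] (X : ZExt N Γ),
    (∀ (k : Type u) [Ring k], RegularRing k → Function.Surjective (K0.map (mdr k X.i))) →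
    ∀ (n : ℕ) (k : Type u) [Ring k], RegularRing k →
      Function.Surjective ((KNegFun n).hom (mdr k X.i)) ∧
      ∀ x : KNeg n (MonoidAlgebra k N), (KNegFun n).hom (mdr k X.i) x = 0 →
        ∃ y, x = y - (KNegFun n).hom (mdr k X.sh.toMonoidHom) y

/-- Conjugation by a unit. -/
def innerHom {A : Type u} [Ring A] (u : Aˣ) : A →+* A where
  toFun x := u * x * (u⁻¹ : Aˣ)
  map_one' := by simp
  map_mul' x y := by simp [mul_assoc]
  map_zero' := by simp
  map_add' x y := by rw [mul_add, add_mul]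

/-- INNER (80 lines). Inner automorphisms act trivially. -/
def InnerStatement : Prop :=
  ∀ (n : ℕ) (A : Type u) [Ring A] (u : Aˣ) (x : KNeg n A), (KNegFun n).hom (innerHom u) x = x

/-- EVFIX (100 lines). -/
def EvfixStatement : Prop :=
  ∀ (n : ℕ) (A : Type u) [Ring A] (r : ℕ → A →+* A),
    (∀ a, ∃ m₀, ∀ m, m₀ ≤ m → r m a = a) →
    ∀ x : KNeg n A, ∃ m₀, ∀ m, m₀ ≤ m → (KNegFun n).hom (r m) x = x

/-- ABS (100 lines). -/
def AbsStatement : Prop :=
  ∀ (G : Type u) [AddCommGroup G] (σ : G ≃+ G) (r : Finset ℤ → G →+ G),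
    (∀ S T x, r S (r T x) = r (S ∩ T) x) →
    (∀ S x, σ (r S x) = r (S.image (· + 1)) (σ x)) →
    (∀ x, ∃ S, r S x = x) → (∀ x, r ∅ x = 0) → (∀ x, ∃ y, x = y - σ y) → ∀ x : G, x = 0

/-- VANW (200 lines, uses EVFIX, ABS). `K_{-n}(R[⊕ L])` vanishes iff its coinvariants do, iff all
`K_{-n}(R[L^m])` vanish. -/
def VanwStatement : Prop :=
  ∀ (L : Type u) [Group L] (R : Type u) [Ring R] (n : ℕ), RegularRing R →
    ((∀ m : ℕ, Subsingleton (KNeg (n + 1) (MonoidAlgebra R (Fin m → L)))) ↔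
      Subsingleton (KNeg (n + 1) (MonoidAlgebra R (Bse L)))) ∧
    ((∀ x : KNeg (n + 1) (MonoidAlgebra R (Bse L)), ∃ y,
      x = y - (KNegFun (n + 1)).hom (mdr R (tr L 1).toMonoidHom) y) →
      Subsingleton (KNeg (n + 1) (MonoidAlgebra R (Bse L))))

/-! ## Part 5. A class of groups closed under wreath products with `ℤ` -/

/-- Finite products of free groups of finite rank. -/
abbrev FrProd (l : List ℕ) : Type := (i : Fin l.length) → FreeGroup (Fin (l.get i))

/-- `K₀(R) → K₀(R[G × P])` is surjective for all finite products `P` of free groups. -/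
def InV (R : Type u) [Ring R] (G : Type u) [Group G] : Prop :=
  ∀ l : List ℕ, Function.Surjective (K0.map (cst R (G × FrProd l)))

/-- INVK (150 lines). -/
def InvkStatement : Prop :=
  ∀ (R : Type u) [Ring R] (G : Type u) [Group G], InV R G →
    ∀ n : ℕ, Subsingleton (KNeg (n + 1) (MonoidAlgebra R G))

/-- CLOS (250 lines, uses WSURJ, EVFIX). -/
def ClosStatement : Prop :=
  ∀ (R : Type u) [Ring R] (L M : Type u) [Group L] [Group M],
    (∀ w : ℕ, InV R (M × (Fin w → L))) → InV R (M × Wr L)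

/-- ITER (100 lines, uses CLOS). -/
def IterStatement : Prop :=
  ∀ (R : Type u) [Ring R] (L : Type u) [Group L],
    (∀ w : ℕ, InV R (Fin w → L)) → ∀ w : ℕ, InV R (Fin w → Wr L)

/-- TFW (60 lines). -/
def TfwStatement : Prop := ∀ (L : Type u) [Group L], TorsionFree L → TorsionFree (Wr L)

end Pool.Agent.NegK
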