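import Pool.Agent.Lib.MP_28303a_al.WR.Det

/-! # Supports of matrices over group rings, extensions by `ℤ`, naturality of the swap -/

set_option autoImplicit false
set_option linter.unusedSectionVars false

namespace Pool.Agent.NegK

universe u v w

open Matrix MonoidAlgebra
open scoped Pointwise

/-- `mapDomainRingHom`: the map of group rings induced by a homomorphism of groups. -/
noncomputable abbrev mdr (k : Type u) [Ring k] {G : Type v} {H : Type w} [Group G] [Group H]
    (f : G →* H) : MonoidAlgebra k G →+* MonoidAlgebra k H := MonoidAlgebra.mapDomainRingHom k f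

/-- The inclusion of the coefficient ring. -/
noncomputable abbrev cst (k : Type u) [Ring k] (G : Type v) [Group G] :
    k →+* MonoidAlgebra k G := MonoidAlgebra.singleOneRingHom

/-- The scalar matrix of a group element. -/
noncomputable def gmat {k : Type u} [Ring k] {G : Type v} [Group G] (ι : Type)
    [DecidableEq ι] (g : G) : Matrix ι ι (MonoidAlgebra k G) :=
  Matrix.diagonal fun _ => single g (1 : k)

section

variable {k : Type u} [Ring k] {G : Type v} {H : Type w} [Group G] [Group H]

theorem mdr_single (f : G →* H) (g : G) (r : k) : mdr k f (single g r) = single (f g) r :=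
  MonoidAlgebra.mapDomain_single

theorem mdr_comp_apply {K : Type*} [Group K] (f : G →* H) (g : H →* K) (x : MonoidAlgebra k G) :
    mdr k g (mdr k f x) = mdr k (g.comp f) x := by
  have h : (mdr k g).comp (mdr k f) = mdr k (g.comp f) := by
    refine MonoidAlgebra.ringHom_ext (fun r => ?_) (fun a => ?_)
    · simp only [RingHom.comp_apply, mdr_single, MonoidHom.comp_apply]
    · simp only [RingHom.comp_apply, mdr_single, MonoidHom.comp_apply]
  exact RingHom.congr_fun h x

theorem mdr_comp_mdr {K : Type*} [Group K] (f : G →* H) (g : H →* K) :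
    (mdr k g).comp (mdr k f) = mdr k (g.comp f) := RingHom.ext fun x => mdr_comp_apply f g x

theorem mdr_id : mdr k (MonoidHom.id G) = RingHom.id _ := by
  refine MonoidAlgebra.ringHom_ext (fun r => ?_) (fun a => ?_) <;> simp

theorem mdr_comp_cst (f : G →* H) : (mdr k f).comp (cst k G) = cst k H := by
  refine RingHom.ext fun r => ?_
  show mdr k f (single 1 r) = single 1 r
  rw [mdr_single, map_one]

theorem mdr_injective {f : G →* H} (hf : Function.Injective f) :
    Function.Injective (mdr k f) := MonoidAlgebra.mapDomain_injective hf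

/-! ### Supports -/

/-- All entries of the matrix are supported in `S`. -/
def MSupp {ι κ : Type} (S : Set G) (α : Matrix ι κ (MonoidAlgebra k G)) : Prop :=
  ∀ i j g, (α i j).coeff g ≠ 0 → g ∈ S

variable {ι κ μ : Type}

theorem MSupp.mono {S T : Set G} (h : S ⊆ T) {α : Matrix ι κ (MonoidAlgebra k G)}
    (hα : MSupp S α) : MSupp T α := fun i j g hg => h (hα i j g hg)

theorem msupp_zero (S : Set G) : MSupp S (0 : Matrix ι κ (MonoidAlgebra k G)) := by
  intro i j g hg
  exact absurd rfl hg

theorem MSupp.add {S : Set G} {α β : Matrix ι κ (MonoidAlgebra k G)} (hα : MSupp S α)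
    (hβ : MSupp S β) : MSupp S (α + β) := by
  intro i j g hg
  by_contra hc
  have h1 : (α i j).coeff g = 0 := by_contra fun h => hc (hα i j g h)
  have h2 : (β i j).coeff g = 0 := by_contra fun h => hc (hβ i j g h)
  exact hg (by
    show ((α i j) + (β i j)).coeff g = 0
    rw [MonoidAlgebra.coeff_add, Finsupp.add_apply, h1, h2, add_zero])

theorem MSupp.neg {S : Set G} {α : Matrix ι κ (MonoidAlgebra k G)} (hα : MSupp S α) :
    MSupp S (-α) := by
  intro i j g hg
  refine hα i j g fun h => hg ?_
  show (-(α i j)).coeff g = 0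
  rw [MonoidAlgebra.coeff_neg, Finsupp.neg_apply, h, neg_zero]

theorem MSupp.sub {S : Set G} {α β : Matrix ι κ (MonoidAlgebra k G)} (hα : MSupp S α)
    (hβ : MSupp S β) : MSupp S (α - β) := by
  rw [sub_eq_add_neg]
  exact hα.add hβ.neg

theorem coeff_mul_ne_zero {x y : MonoidAlgebra k G} {g : G} (h : (x * y).coeff g ≠ 0) :
    ∃ a b, x.coeff a ≠ 0 ∧ y.coeff b ≠ 0 ∧ a * b = g := by
  classical
  rw [MonoidAlgebra.coeff_mul] at h
  by_contra hc
  push Not at hc
  refine h ?_
  refine Finset.sum_eq_zero fun a ha => Finset.sum_eq_zero fun b hb => ?_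
  exact if_neg (hc a b (Finsupp.mem_support_iff.1 ha) (Finsupp.mem_support_iff.1 hb))

theorem MSupp.mul [Fintype κ] {S T : Set G} {α : Matrix ι κ (MonoidAlgebra k G)}
    {β : Matrix κ μ (MonoidAlgebra k G)} (hα : MSupp S α) (hβ : MSupp T β) :
    MSupp (S * T) (α * β) := by
  intro i j g hg
  have h1 : ∃ x, (α i x * β x j).coeff g ≠ 0 := by
    by_contra hc
    push Not at hc
    refine hg ?_
    rw [Matrix.mul_apply, MonoidAlgebra.coeff_sum, Finsupp.finsetSum_apply]
    exact Finset.sum_eq_zero fun x _ => hc x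
  obtain ⟨x, hx⟩ := h1
  obtain ⟨a, b, ha, hb, rfl⟩ := coeff_mul_ne_zero hx
  exact Set.mul_mem_mul (hα i x a ha) (hβ x j b hb)

theorem MSupp.mul' [Fintype κ] {S T U : Set G} {α : Matrix ι κ (MonoidAlgebra k G)}
    {β : Matrix κ μ (MonoidAlgebra k G)} (hα : MSupp S α) (hβ : MSupp T β)
    (h : ∀ a ∈ S, ∀ b ∈ T, a * b ∈ U) : MSupp U (α * β) := by
  refine (hα.mul hβ).mono ?_
  rintro _ ⟨a, ha, b, hb, rfl⟩
  exact h a ha b hb

theorem MSupp.blocks {ι' κ' : Type} {S : Set G} {α : Matrix ι κ (MonoidAlgebra k G)}
    {β : Matrix ι κ' (MonoidAlgebra k G)} {γ : Matrix ι' κ (MonoidAlgebra k G)}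
    {δ : Matrix ι' κ' (MonoidAlgebra k G)} (h1 : MSupp S α) (h2 : MSupp S β) (h3 : MSupp S γ)
    (h4 : MSupp S δ) : MSupp S (fromBlocks α β γ δ) := by
  rintro (i | i) (j | j) g hg
  · exact h1 i j g hg
  · exact h2 i j g hg
  · exact h3 i j g hg
  · exact h4 i j g hg

theorem coeff_single_ne {g h : G} {r : k} (hc : (single g r).coeff h ≠ 0) : h = g := by
  classical
  rw [MonoidAlgebra.coeff_single, Finsupp.single_apply] at hc
  by_contra hne
  exact hc (if_neg (Ne.symm hne))

theorem msupp_gmat [DecidableEq ι] (g : G) : MSupp {g} (gmat (k := k) ι g) := by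
  intro i j h hh
  unfold gmat at hh
  by_cases hij : i = j
  · subst hij
    rw [Matrix.diagonal_apply_eq] at hh
    exact coeff_single_ne hh
  · rw [Matrix.diagonal_apply_ne _ hij] at hh
    exact absurd rfl hh

theorem msupp_one [DecidableEq ι] {S : Set G} (h : (1 : G) ∈ S) :
    MSupp S (1 : Matrix ι ι (MonoidAlgebra k G)) := by
  intro i j g hg
  by_cases hij : i = j
  · subst hij
    rw [Matrix.one_apply_eq, MonoidAlgebra.one_def] at hg
    rw [coeff_single_ne hg]
    exact h
  · rw [Matrix.one_apply_ne hij] at hg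
    exact absurd rfl hg

theorem coeff_mdr_ne {f : G →* H} {x : MonoidAlgebra k G} {h : H}
    (hc : (mdr k f x).coeff h ≠ 0) : ∃ g, x.coeff g ≠ 0 ∧ f g = h := by
  classical
  by_contra hcon
  push Not at hcon
  refine hc ?_
  show (Finsupp.mapDomain f x.coeff) h = 0
  rw [Finsupp.mapDomain, Finsupp.sum_apply]
  refine Finset.sum_eq_zero fun g hg => ?_
  show (Finsupp.single (f g) (x.coeff g)) h = 0
  rw [Finsupp.single_apply, if_neg (hcon g (Finsupp.mem_support_iff.1 hg))]

theorem msupp_map {f : G →* H} (α : Matrix ι κ (MonoidAlgebra k G)) :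
    MSupp (Set.range f) (α.map (mdr k f)) := by
  intro i j h hh
  obtain ⟨g, _, rfl⟩ := coeff_mdr_ne hh
  exact ⟨g, rfl⟩

/-- A matrix supported in the image of an injective homomorphism comes from the subgroup. -/
theorem MSupp.exists_map {f : G →* H} (hf : Function.Injective f)
    {α : Matrix ι κ (MonoidAlgebra k H)} (hα : MSupp (Set.range f) α) :
    ∃ β : Matrix ι κ (MonoidAlgebra k G), β.map (mdr k f) = α := by
  refine ⟨fun i j => MonoidAlgebra.comapDomain f hf (α i j), ?_⟩
  ext1 i j
  exact MonoidAlgebra.mapDomain_comapDomain (fun g hg =>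
    hα i j g (Finsupp.mem_support_iff.1 hg)) hf

/-! ### The scalar matrix of a group element -/

theorem gmat_mul [Fintype ι] [DecidableEq ι] (g h : G) :
    gmat (k := k) ι g * gmat ι h = gmat ι (g * h) := by
  unfold gmat
  rw [Matrix.diagonal_mul_diagonal]
  simp only [MonoidAlgebra.single_mul_single, one_mul]

theorem gmat_one [DecidableEq ι] : gmat (k := k) ι (1 : G) = 1 := Matrix.diagonal_one

theorem gmat_mul_inv [Fintype ι] [DecidableEq ι] (g : G) :
    gmat (k := k) ι g * gmat ι g⁻¹ = 1 := by rw [gmat_mul, mul_inv_cancel, gmat_one]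

theorem gmat_inv_mul [Fintype ι] [DecidableEq ι] (g : G) :
    gmat (k := k) ι g⁻¹ * gmat ι g = 1 := by rw [gmat_mul, inv_mul_cancel, gmat_one]

theorem isUnit_gmat [Fintype ι] [DecidableEq ι] (g : G) : IsUnit (gmat (k := k) ι g) :=
  isUnit_of_mul (gmat_mul_inv g) (gmat_inv_mul g)

theorem gmat_mul_apply [Fintype ι] [DecidableEq ι] (g : G)
    (α : Matrix ι κ (MonoidAlgebra k G)) (i : ι) (j : κ) :
    ((gmat ι g : Matrix ι ι (MonoidAlgebra k G)) * α) i j = single g 1 * α i j :=
  Matrix.diagonal_mul _ _ _ _

theorem mul_gmat_apply [Fintype κ] [DecidableEq κ] (g : G)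
    (α : Matrix ι κ (MonoidAlgebra k G)) (i : ι) (j : κ) :
    (α * (gmat κ g : Matrix κ κ (MonoidAlgebra k G))) i j = α i j * single g 1 :=
  Matrix.mul_diagonal _ _ _ _

/-- A homomorphism maps scalar matrices of group elements to such matrices. -/
theorem gmat_map [DecidableEq ι] (f : G →* H) (g : G) :
    (gmat (k := k) ι g).map (mdr k f) = gmat ι (f g) := by
  unfold gmat
  rw [Matrix.diagonal_map (map_zero _)]
  simp only [mdr_single]

end

/-! ### Extensions by `ℤ` -/

/-- `Γ` is an extension of `ℤ` by (the image of) `N`: `dg : Γ → ℤ` has kernel `i(N)`, `dg s = 1`,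
and `sh` is the conjugation by `s` on `N`. -/
structure ZExt (N Γ : Type u) [Group N] [Group Γ] where
  i : N →* Γ
  dg : Γ →* Multiplicative ℤ
  s : Γ
  sh : N ≃* N
  inj : Function.Injective i
  ker : ∀ g, dg g = 1 ↔ ∃ n, i n = g
  dgs : dg s = Multiplicative.ofAdd 1
  conj : ∀ n, i (sh n) = s * i n * s⁻¹

/-- The wreath product `L wr ℤ` as an extension of `ℤ`. -/
def wrExt (L : Type u) [Group L] : ZExt (Bse L) (Wr L) where
  i := SemidirectProduct.inl
  dg := SemidirectProduct.rightHom
  s := ws L
  sh := tr L 1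
  inj := SemidirectProduct.inl_injective
  ker g := by
    rw [← MonoidHom.mem_ker, ← SemidirectProduct.range_inl_eq_ker_rightHom]
    rfl
  dgs := by
    unfold ws
    rw [SemidirectProduct.rightHom_inr]
  conj n := by
    have h := SemidirectProduct.inl_aut (φ := trHom L) (Multiplicative.ofAdd 1) n
    rw [trHom_apply] at h
    rw [ws, ← map_inv]
    exact h

/-! ### Naturality of `k[t, t⁻¹][G] ≃ k[G][t, t⁻¹]` -/

open H64 in
theorem swap_single (k : Type u) [Ring k] {G : Type v} [Group G] (g : G) (n : ℤ) (r : k) :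
    swapEquiv k G (single g (AddMonoidAlgebra.single n r)) =
      AddMonoidAlgebra.single n (single g r) := by
  show (AddMonoidAlgebra.toMultiplicative (MonoidAlgebra k G) ℤ).symm
    (MonoidAlgebra.commRingEquiv (R := k) (M := Multiplicative ℤ) (N := G)
      (MonoidAlgebra.mapRingEquiv G (AddMonoidAlgebra.toMultiplicative k ℤ)
        (MonoidAlgebra.single g (AddMonoidAlgebra.single n r)))) = _
  rw [MonoidAlgebra.mapRingEquiv_single, AddMonoidAlgebra.toMultiplicative_single,
    MonoidAlgebra.commRingEquiv_single_single, RingEquiv.symm_apply_eq]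
  exact (AddMonoidAlgebra.toMultiplicative_single _ _).symm

theorem swap_natural (k : Type u) [Ring k] {G : Type u} {H : Type u} [Group G] [Group H]
    (f : G →* H) :
    (lmap (mdr k f)).comp (H64.swapEquiv k G : MonoidAlgebra (LaurentPolynomial k) G →+*
        LaurentPolynomial (MonoidAlgebra k G)) =
      (H64.swapEquiv k H : MonoidAlgebra (LaurentPolynomial k) H →+*
        LaurentPolynomial (MonoidAlgebra k H)).comp (mdr (LaurentPolynomial k) f) := by
  have key : ∀ (g : G) (x : LaurentPolynomial k),
      lmap (mdr k f) (H64.swapEquiv k G (single g x)) = H64.swapEquiv k H (single (f g) x) := by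
    intro g x
    induction x using AddMonoidAlgebra.induction_linear with
    | zero => rw [MonoidAlgebra.single_zero, MonoidAlgebra.single_zero, map_zero, map_zero, map_zero]
    | add x y hx hy => rw [MonoidAlgebra.single_add, MonoidAlgebra.single_add, map_add, map_add,
        map_add, hx, hy]
    | single n r =>
      rw [swap_single, swap_single]
      show AddMonoidAlgebra.mapRingHom ℤ (mdr k f) (AddMonoidAlgebra.single n (single g r)) = _
      rw [AddMonoidAlgebra.mapRingHom_single, mdr_single]
  refine MonoidAlgebra.ringHom_ext (fun x => ?_) (fun g => ?_)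
  · simp only [RingHom.comp_apply, mdr_single, map_one]
    have := key 1 x
    rwa [map_one] at this
  · simp only [RingHom.comp_apply, mdr_single]
    exact key g 1

theorem swap_natural0 (k : Type u) [Ring k] {G : Type} {H : Type u} [Group G] [Group H]
    (f : G →* H) :
    (lmap (mdr k f)).comp (H64.swapEquiv k G : MonoidAlgebra (LaurentPolynomial k) G →+*
        LaurentPolynomial (MonoidAlgebra k G)) =
      (H64.swapEquiv k H : MonoidAlgebra (LaurentPolynomial k) H →+*
        LaurentPolynomial (MonoidAlgebra k H)).comp (mdr (LaurentPolynomial k) f) := by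
  have key : ∀ (g : G) (x : LaurentPolynomial k),
      lmap (mdr k f) (H64.swapEquiv k G (single g x)) = H64.swapEquiv k H (single (f g) x) := by
    intro g x
    induction x using AddMonoidAlgebra.induction_linear with
    | zero => rw [MonoidAlgebra.single_zero, MonoidAlgebra.single_zero, map_zero, map_zero, map_zero]
    | add x y hx hy => rw [MonoidAlgebra.single_add, MonoidAlgebra.single_add, map_add, map_add,
        map_add, hx, hy]
    | single n r =>
      rw [swap_single, swap_single]
      show AddMonoidAlgebra.mapRingHom ℤ (mdr k f) (AddMonoidAlgebra.single n (single g r)) = _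
      rw [AddMonoidAlgebra.mapRingHom_single, mdr_single]
  refine MonoidAlgebra.ringHom_ext (fun x => ?_) (fun g => ?_)
  · simp only [RingHom.comp_apply, mdr_single, map_one]
    have := key 1 x
    rwa [map_one] at this
  · simp only [RingHom.comp_apply, mdr_single]
    exact key g 1

/-! ### Change of rings and of values -/

/-- Pull back along a ring homomorphism. -/
def Det1.comap {E E' : Type*} [Ring E] [Ring E'] {M : Type v} [AddCommGroup M] (χ : Det1 E' M)
    (φ : E →+* E') : Det1 E M where
  val := fun {ι} _ _ (α : Matrix ι ι E) => χ.val (α.map φ)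
  mul := by
    intro ι _ _ α β hα hβ
    rw [Matrix.map_mul]
    exact χ.mul _ _ (hα.map φ.mapMatrix) (hβ.map φ.mapMatrix)
  blocks := by
    intro ι κ _ _ _ _ α β hα hβ
    rw [Matrix.fromBlocks_map]
    have h1 : (0 : Matrix ι κ E).map φ = 0 := Matrix.map_zero _ (map_zero φ)
    have h2 : (0 : Matrix κ ι E).map φ = 0 := Matrix.map_zero _ (map_zero φ)
    rw [h1, h2]
    exact χ.blocks _ _ (hα.map φ.mapMatrix) (hβ.map φ.mapMatrix)
  reindex := by
    intro ι κ _ _ _ _ σ α hα
    rw [← Matrix.submatrix_map]
    exact χ.reindex σ _ (hα.map φ.mapMatrix)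
  upper := by
    intro ι κ _ _ _ _ x
    rw [Matrix.fromBlocks_map]
    have h2 : (0 : Matrix κ ι E).map φ = 0 := Matrix.map_zero _ (map_zero φ)
    have h3 : (1 : Matrix ι ι E).map φ = 1 := Matrix.map_one _ (map_zero φ) (map_one φ)
    have h4 : (1 : Matrix κ κ E).map φ = 1 := Matrix.map_one _ (map_zero φ) (map_one φ)
    rw [h2, h3, h4]
    exact χ.upper _
  lower := by
    intro ι κ _ _ _ _ x
    rw [Matrix.fromBlocks_map]
    have h2 : (0 : Matrix ι κ E).map φ = 0 := Matrix.map_zero _ (map_zero φ)
    have h3 : (1 : Matrix ι ι E).map φ = 1 := Matrix.map_one _ (map_zero φ) (map_one φ)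
    have h4 : (1 : Matrix κ κ E).map φ = 1 := Matrix.map_one _ (map_zero φ) (map_one φ)
    rw [h2, h3, h4]
    exact χ.lower _

theorem Det1.comap_val {E E' : Type*} [Ring E] [Ring E'] {M : Type v} [AddCommGroup M]
    (χ : Det1 E' M) (φ : E →+* E') {ι : Type} [Fintype ι] [DecidableEq ι] (α : Matrix ι ι E) :
    (χ.comap φ).val α = χ.val (α.map φ) := rfl

/-- Compose with a homomorphism of the groups of values. -/
def Det1.push {E : Type u} [Ring E] {M : Type v} {M' : Type w} [AddCommGroup M] [AddCommGroup M']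
    (χ : Det1 E M) (f : M →+ M') : Det1 E M' where
  val := fun {ι} _ _ (α : Matrix ι ι E) => f (χ.val α)
  mul := fun α β hα hβ => by rw [χ.mul _ _ hα hβ, map_add]
  blocks := fun α β hα hβ => by rw [χ.blocks _ _ hα hβ, map_add]
  reindex := fun σ α hα => by rw [χ.reindex σ α hα]
  upper := fun x => by rw [χ.upper, map_zero]
  lower := fun x => by rw [χ.lower, map_zero]

theorem Det1.push_val {E : Type u} [Ring E] {M : Type v} {M' : Type w} [AddCommGroup M]
    [AddCommGroup M'] (χ : Det1 E M) (f : M →+ M') {ι : Type} [Fintype ι] [DecidableEq ι]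
    (α : Matrix ι ι E) : (χ.push f).val α = f (χ.val α) := rfl

end Pool.Agent.NegK
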