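import Pool.Agent.Lib.MP_28303a_al.WR.Base

/-! # The class of a finitely generated projective module, relative classes of submodules -/

set_option autoImplicit false
set_option linter.unusedSectionVars false

namespace Pool.Agent.NegK

universe u v w

open H50

section

variable (A : Type u) [Ring A]

open Classical in
/-- The class in `K₀` of a finitely generated projective module (`0` for other modules). -/
noncomputable def mc (M : Type v) [AddCommGroup M] [Module A M] : K0 A :=
  if h : Module.Finite A M ∧ Module.Projective A M then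
    K0.cls (exists_rep h.1 h.2).choose else 0

variable {A}
variable {M : Type v} [AddCommGroup M] [Module A M] {N : Type v} [AddCommGroup N] [Module A N]

theorem mc_of_rep {p : Idem A} (h : Rep M p) : mc A M = K0.cls p := by
  have h1 : Module.Finite A M ∧ Module.Projective A M := ⟨h.finite, h.projective⟩
  unfold mc
  rw [dif_pos h1]
  exact Rep.cls_eq (exists_rep h1.1 h1.2).choose_spec h (LinearEquiv.refl A M)

theorem mc_congr (h1 : Module.Finite A M) (h2 : Module.Projective A M) (e : M ≃ₗ[A] N) :
    mc A M = mc A N := by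
  obtain ⟨p, hp⟩ := exists_rep h1 h2
  rw [mc_of_rep hp, mc_of_rep (hp.congr e)]

theorem mc_prod (h1 : Module.Finite A M) (h2 : Module.Projective A M) (h3 : Module.Finite A N)
    (h4 : Module.Projective A N) : mc A (M × N) = mc A M + mc A N := by
  obtain ⟨p, hp⟩ := exists_rep h1 h2
  obtain ⟨q, hq⟩ := exists_rep h3 h4
  rw [mc_of_rep hp, mc_of_rep hq, mc_of_rep (hp.prod hq), NegK.cls_sum]

/-- A surjection onto a projective module splits off its kernel. -/
theorem exists_ker_equiv (h2 : Module.Projective A N) (f : M →ₗ[A] N)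
    (hf : Function.Surjective f) : Nonempty (M ≃ₗ[A] (LinearMap.ker f × N)) := by
  obtain ⟨g, hg⟩ := Module.projective_lifting_property f LinearMap.id hf
  have hg' : ∀ y, f (g y) = y := fun y => LinearMap.congr_fun hg y
  have hk : ∀ x, ((LinearMap.id - g ∘ₗ f : M →ₗ[A] M) x) ∈ LinearMap.ker f := by
    intro x
    rw [LinearMap.mem_ker, LinearMap.sub_apply, LinearMap.id_apply, LinearMap.comp_apply, map_sub,
      hg', sub_self]
  refine ⟨LinearEquiv.ofLinearMap
    (LinearMap.prod ((LinearMap.id - g ∘ₗ f).codRestrict (LinearMap.ker f) hk) f)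
    (LinearMap.coprod (LinearMap.ker f).subtype g) ?_ ?_⟩
  · refine LinearMap.ext fun xy => ?_
    obtain ⟨x, y⟩ := xy
    have hx : f (x : M) = 0 := x.2
    refine Prod.ext (Subtype.ext ?_) ?_
    · simp [hg', hx]
    · simp [hg', hx]
  · refine LinearMap.ext fun x => ?_
    simp

theorem ker_finite (h1 : Module.Finite A M) (h2 : Module.Projective A N) (f : M →ₗ[A] N)
    (hf : Function.Surjective f) : Module.Finite A (LinearMap.ker f) := by
  obtain ⟨e⟩ := exists_ker_equiv h2 f hf
  exact Module.Finite.of_surjective ((LinearMap.fst A _ _).comp e.toLinearMap)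
    (Prod.fst_surjective.comp e.surjective)

theorem ker_projective (h1 : Module.Projective A M) (h2 : Module.Projective A N)
    (f : M →ₗ[A] N) (hf : Function.Surjective f) : Module.Projective A (LinearMap.ker f) := by
  obtain ⟨e⟩ := exists_ker_equiv h2 f hf
  refine Module.Projective.of_split (e.symm.toLinearMap.comp (LinearMap.inl A _ _))
    ((LinearMap.fst A _ _).comp e.toLinearMap) ?_
  refine LinearMap.ext fun x => ?_
  simp

/-- Additivity of the class. -/
theorem mc_ker (h1 : Module.Finite A M) (h2 : Module.Projective A M) (h3 : Module.Projective A N)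
    (f : M →ₗ[A] N) (hf : Function.Surjective f) :
    mc A M = mc A (LinearMap.ker f) + mc A N := by
  obtain ⟨e⟩ := exists_ker_equiv h3 f hf
  have h4 : Module.Finite A N := Module.Finite.of_surjective f hf
  rw [mc_congr h1 h2 e, mc_prod (ker_finite h1 h3 f hf) (ker_projective h2 h3 f hf) h4 h3]

/-! ### Relative classes -/

variable {V : Type v} [AddCommGroup V] [Module A V]

/-- The class of `Q / P` for submodules `P ≤ Q` of `V` (as a submodule of `V / P`). -/
noncomputable def rel (Q P : Submodule A V) : K0 A := mc A (Q.map P.mkQ)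

theorem rel_projective {P Q : Submodule A V} (h : P ≤ Q) (hP : Module.Projective A (V ⧸ P))
    (hQ : Module.Projective A (V ⧸ Q)) : Module.Projective A (Q.map P.mkQ) := by
  have e := Submodule.quotientQuotientEquivQuotient P Q h
  have h1 : Module.Projective A ((V ⧸ P) ⧸ Q.map P.mkQ) := Module.Projective.of_equiv e.symm
  have h2 := ker_projective hP h1 (Q.map P.mkQ).mkQ (Submodule.mkQ_surjective _)
  rwa [Submodule.ker_mkQ] at h2

theorem rel_add {P Q T : Submodule A V} (h1 : P ≤ Q) (h2 : Q ≤ T)
    (hP : Module.Projective A (V ⧸ P)) (hQ : Module.Projective A (V ⧸ Q))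
    (hT : Module.Projective A (V ⧸ T)) (hfin : Module.Finite A (T.map P.mkQ)) :
    rel T P = rel T Q + rel Q P := by
  -- the surjection `T / P → T / Q`
  let g : (V ⧸ P) →ₗ[A] (V ⧸ Q) := Submodule.factor h1
  have hg : ∀ v, g (P.mkQ v) = Q.mkQ v := fun v => rfl
  let f : (T.map P.mkQ) →ₗ[A] (T.map Q.mkQ) :=
    g.restrict (by
      rintro _ ⟨v, hv, rfl⟩
      exact ⟨v, hv, rfl⟩)
  have hf : Function.Surjective f := by
    rintro ⟨_, v, hv, rfl⟩
    exact ⟨⟨P.mkQ v, v, hv, rfl⟩, rfl⟩
  have hk := mc_ker hfin (rel_projective (h1.trans h2) hP hT) (rel_projective h2 hQ hT) f hf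
  have hle : Q.map P.mkQ ≤ T.map P.mkQ := Submodule.map_mono h2
  have hker : LinearMap.ker f = (Q.map P.mkQ).submoduleOf (T.map P.mkQ) := by
    ext ⟨x, hx⟩
    obtain ⟨v, hv, rfl⟩ := hx
    rw [LinearMap.mem_ker]
    constructor
    · intro h
      have h3 : Q.mkQ v = 0 := congrArg Subtype.val h
      rw [Submodule.mkQ_apply, Submodule.Quotient.mk_eq_zero] at h3
      exact ⟨v, h3, rfl⟩
    · rintro ⟨w, hw, hvw⟩
      have h4 : P.mkQ w = P.mkQ v := hvw
      have h3 : Q.mkQ v = 0 := by
        rw [← hg, ← h4, hg, Submodule.mkQ_apply, Submodule.Quotient.mk_eq_zero]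
        exact hw
      exact Subtype.ext h3
  have h5 : Module.Finite A (LinearMap.ker f) := ker_finite hfin (rel_projective h2 hQ hT) f hf
  have h6 : Module.Projective A (LinearMap.ker f) :=
    ker_projective (rel_projective (h1.trans h2) hP hT) (rel_projective h2 hQ hT) f hf
  have e : LinearMap.ker f ≃ₗ[A] (Q.map P.mkQ) :=
    (LinearEquiv.ofEq _ _ hker).trans (Submodule.submoduleOfEquivOfLe hle)
  unfold rel
  rw [hk, mc_congr h5 h6 e, add_comm]

theorem rel_finite {P Q T : Submodule A V} (h1 : P ≤ Q) (h2 : Q ≤ T)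
    (hQ : Module.Projective A (V ⧸ Q)) (hT : Module.Projective A (V ⧸ T))
    (hfin : Module.Finite A (T.map P.mkQ)) : Module.Finite A (Q.map P.mkQ) := by
  let g : (V ⧸ P) →ₗ[A] (V ⧸ Q) := Submodule.factor h1
  have hg : ∀ v, g (P.mkQ v) = Q.mkQ v := fun v => rfl
  let f : (T.map P.mkQ) →ₗ[A] (T.map Q.mkQ) :=
    g.restrict (by
      rintro _ ⟨v, hv, rfl⟩
      exact ⟨v, hv, rfl⟩)
  have hf : Function.Surjective f := by
    rintro ⟨_, v, hv, rfl⟩
    exact ⟨⟨P.mkQ v, v, hv, rfl⟩, rfl⟩
  have hle : Q.map P.mkQ ≤ T.map P.mkQ := Submodule.map_mono h2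
  have hker : LinearMap.ker f = (Q.map P.mkQ).submoduleOf (T.map P.mkQ) := by
    ext ⟨x, hx⟩
    obtain ⟨v, hv, rfl⟩ := hx
    rw [LinearMap.mem_ker]
    constructor
    · intro h
      have h3 : Q.mkQ v = 0 := congrArg Subtype.val h
      rw [Submodule.mkQ_apply, Submodule.Quotient.mk_eq_zero] at h3
      exact ⟨v, h3, rfl⟩
    · rintro ⟨w, hw, hvw⟩
      have h4 : P.mkQ w = P.mkQ v := hvw
      have h3 : Q.mkQ v = 0 := by
        rw [← hg, ← h4, hg, Submodule.mkQ_apply, Submodule.Quotient.mk_eq_zero]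
        exact hw
      exact Subtype.ext h3
  have h5 : Module.Finite A (LinearMap.ker f) := ker_finite hfin (rel_projective h2 hQ hT) f hf
  have e : LinearMap.ker f ≃ₗ[A] (Q.map P.mkQ) :=
    (LinearEquiv.ofEq _ _ hker).trans (Submodule.submoduleOfEquivOfLe hle)
  exact Module.Finite.equiv e

/-- Relative classes are preserved by linear automorphisms. -/
theorem rel_map (g : V ≃ₗ[A] V) {P Q : Submodule A V}
    (hfin : Module.Finite A (Q.map P.mkQ)) (hproj : Module.Projective A (Q.map P.mkQ)) :
    rel (Q.map g.toLinearMap) (P.map g.toLinearMap) = rel Q P := by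
  let e : (V ⧸ P) ≃ₗ[A] (V ⧸ P.map g.toLinearMap) :=
    Submodule.Quotient.equiv P (P.map g.toLinearMap) g rfl
  have he : (Q.map P.mkQ).map e.toLinearMap =
      (Q.map g.toLinearMap).map (P.map g.toLinearMap).mkQ := by
    rw [← Submodule.map_comp, ← Submodule.map_comp]
    rfl
  have e' : (Q.map P.mkQ) ≃ₗ[A] ((Q.map g.toLinearMap).map (P.map g.toLinearMap).mkQ) :=
    (e.submoduleMap (Q.map P.mkQ)).trans (LinearEquiv.ofEq _ _ he)
  exact (mc_congr hfin hproj e').symm

end

end Pool.Agent.NegK
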