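import Pool.Agent.Lib.MP_28303a_al.NK.Group

/-! # The wreath product `L wr ℤ`

`Bse L` is the direct sum of copies of the group `L` indexed by `ℤ`, `Wr L` is its semidirect
product with `ℤ` acting by translation, that is the (restricted) wreath product of `L` with `ℤ`. -/

set_option autoImplicit false

namespace Pool.Agent.NegK

universe u

/-- The direct sum of copies of `L` indexed by `ℤ`: finitely supported functions `ℤ → L`. -/
abbrev Bse (L : Type u) [Group L] : Type u := finSupp (fun _ : ℤ => L)

section

variable (L : Type u) [Group L]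

/-- Translation by `j`: `(tr j x) i = x (i - j)`. -/
def tr (j : ℤ) : Bse L ≃* Bse L where
  toFun x := ⟨fun i => (x : ℤ → L) (i - j), by
    refine (x.2.image (fun i => i + j)).subset fun i hi => ?_
    exact ⟨i - j, hi, by simp⟩⟩
  invFun x := ⟨fun i => (x : ℤ → L) (i + j), by
    refine (x.2.image (fun i => i - j)).subset fun i hi => ?_
    exact ⟨i + j, hi, by simp⟩⟩
  left_inv x := Subtype.ext (funext fun i => by
    show (x : ℤ → L) (i + j - j) = (x : ℤ → L) i
    rw [add_sub_cancel_right])
  right_inv x := Subtype.ext (funext fun i => by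
    show (x : ℤ → L) (i - j + j) = (x : ℤ → L) i
    rw [sub_add_cancel])
  map_mul' x y := rfl

theorem tr_apply (j : ℤ) (x : Bse L) (i : ℤ) : (tr L j x : ℤ → L) i = (x : ℤ → L) (i - j) := rfl

/-- The translation action of `ℤ` on `Bse L`. -/
def trHom : Multiplicative ℤ →* MulAut (Bse L) where
  toFun j := tr L j.toAdd
  map_one' := by
    refine MulEquiv.ext fun x => Subtype.ext (funext fun i => ?_)
    show (x : ℤ → L) (i - 0) = (x : ℤ → L) i
    rw [sub_zero]
  map_mul' a b := by
    refine MulEquiv.ext fun x => Subtype.ext (funext fun i => ?_)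
    show (x : ℤ → L) (i - (a.toAdd + b.toAdd)) = (x : ℤ → L) (i - a.toAdd - b.toAdd)
    rw [sub_sub]

theorem trHom_apply (j : Multiplicative ℤ) : trHom L j = tr L j.toAdd := rfl

/-- The wreath product `L wr ℤ`. -/
abbrev Wr : Type u := SemidirectProduct (Bse L) (Multiplicative ℤ) (trHom L)

/-- The generator of `ℤ` in `L wr ℤ`. -/
def ws : Wr L := SemidirectProduct.inr (Multiplicative.ofAdd 1)

end

end Pool.Agent.NegK
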