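import Pool.Agent.Lib.MP_28303a_al.NK.H91.KE
import Pool.Agent.Lib.MP_28303a_al.WR.Defs

/-! # Determinants, that is homomorphisms from `K₁`, and supports of matrices over group rings -/

set_option autoImplicit false

namespace Pool.Agent.NegK

universe u v w

open Matrix MonoidAlgebra

/-- A homomorphism from `K₁(E)` to `M`: a function on invertible matrices over `E` of all sizes
which is additive on products and block sums, invariant under renaming of the indices, and zero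
on block unipotent matrices. -/
structure Det1 (E : Type u) [Ring E] (M : Type v) [AddCommGroup M] where
  val : {ι : Type} → [Fintype ι] → [DecidableEq ι] → Matrix ι ι E → M
  mul : ∀ {ι : Type} [Fintype ι] [DecidableEq ι] (α β : Matrix ι ι E), IsUnit α → IsUnit β →
    val (α * β) = val α + val β
  blocks : ∀ {ι κ : Type} [Fintype ι] [DecidableEq ι] [Fintype κ] [DecidableEq κ]
    (α : Matrix ι ι E) (β : Matrix κ κ E), IsUnit α → IsUnit β →
    val (fromBlocks α 0 0 β) = val α + val β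
  reindex : ∀ {ι κ : Type} [Fintype ι] [DecidableEq ι] [Fintype κ] [DecidableEq κ] (σ : κ ≃ ι)
    (α : Matrix ι ι E), IsUnit α → val (α.submatrix σ σ) = val α
  upper : ∀ {ι κ : Type} [Fintype ι] [DecidableEq ι] [Fintype κ] [DecidableEq κ]
    (x : Matrix ι κ E), val (fromBlocks 1 x 0 1) = 0
  lower : ∀ {ι κ : Type} [Fintype ι] [DecidableEq ι] [Fintype κ] [DecidableEq κ]
    (x : Matrix κ ι E), val (fromBlocks 1 0 x 1) = 0

section

variable {E : Type u} [Ring E] {M : Type v} [AddCommGroup M]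
variable {ι κ : Type} [Fintype ι] [DecidableEq ι] [Fintype κ] [DecidableEq κ]

theorem isUnit_of_mul {α β : Matrix ι ι E} (h1 : α * β = 1) (h2 : β * α = 1) : IsUnit α :=
  ⟨⟨α, β, h1, h2⟩, rfl⟩

theorem exists_inv {α : Matrix ι ι E} (h : IsUnit α) : ∃ β : Matrix ι ι E, α * β = 1 ∧ β * α = 1 := by
  obtain ⟨u, rfl⟩ := h
  exact ⟨((u⁻¹ : (Matrix ι ι E)ˣ) : Matrix ι ι E), u.mul_inv, u.inv_mul⟩

theorem isUnit_upper (x : Matrix ι κ E) : IsUnit (fromBlocks 1 x 0 1 : Matrix (ι ⊕ κ) (ι ⊕ κ) E) := by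
  refine isUnit_of_mul (β := fromBlocks 1 (-x) 0 1) ?_ ?_ <;>
    rw [Matrix.fromBlocks_multiply, ← Matrix.fromBlocks_one] <;> simp

theorem isUnit_lower (x : Matrix κ ι E) : IsUnit (fromBlocks 1 0 x 1 : Matrix (ι ⊕ κ) (ι ⊕ κ) E) := by
  refine isUnit_of_mul (β := fromBlocks 1 0 (-x) 1) ?_ ?_ <;>
    rw [Matrix.fromBlocks_multiply, ← Matrix.fromBlocks_one] <;> simp

theorem isUnit_blocks {α : Matrix ι ι E} {β : Matrix κ κ E} (h1 : IsUnit α) (h2 : IsUnit β) :
    IsUnit (fromBlocks α 0 0 β) := by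
  obtain ⟨a, ha, ha'⟩ := exists_inv h1
  obtain ⟨b, hb, hb'⟩ := exists_inv h2
  refine isUnit_of_mul (β := fromBlocks a 0 0 b) ?_ ?_ <;>
    rw [Matrix.fromBlocks_multiply, ← Matrix.fromBlocks_one] <;> simp [ha, ha', hb, hb']

theorem Det1.val_one (χ : Det1 E M) : χ.val (1 : Matrix ι ι E) = 0 := by
  have h := χ.mul (1 : Matrix ι ι E) 1 isUnit_one isUnit_one
  rw [mul_one] at h
  exact left_eq_add.1 h

theorem Det1.val_inv (χ : Det1 E M) {α β : Matrix ι ι E} (h1 : α * β = 1) (h2 : β * α = 1) :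
    χ.val β = - χ.val α := by
  have h := χ.mul α β (isUnit_of_mul h1 h2) (isUnit_of_mul h2 h1)
  rw [h1, χ.val_one] at h
  exact eq_neg_of_add_eq_zero_right h.symm

theorem Det1.val_conj (χ : Det1 E M) {g h α : Matrix ι ι E} (h1 : g * h = 1) (h2 : h * g = 1)
    (hα : IsUnit α) : χ.val (g * α * h) = χ.val α := by
  have hg := isUnit_of_mul h1 h2
  have hh := isUnit_of_mul h2 h1
  rw [χ.mul _ _ (hg.mul hα) hh, χ.mul _ _ hg hα, χ.val_inv h1 h2]
  abel

theorem Det1.val_blocks_one (χ : Det1 E M) {α : Matrix ι ι E} (hα : IsUnit α) :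
    χ.val (fromBlocks α 0 0 (1 : Matrix κ κ E)) = χ.val α := by
  rw [χ.blocks _ _ hα isUnit_one, χ.val_one, add_zero]

theorem Det1.val_one_blocks (χ : Det1 E M) {α : Matrix ι ι E} (hα : IsUnit α) :
    χ.val (fromBlocks (1 : Matrix κ κ E) 0 0 α) = χ.val α := by
  rw [χ.blocks _ _ isUnit_one hα, χ.val_one, zero_add]

/-- `1 + XY` is invertible iff `1 + YX` is. -/
theorem isUnit_one_add_swap {X : Matrix ι κ E} {Y : Matrix κ ι E} (h : IsUnit (1 + X * Y)) :
    IsUnit (1 + Y * X) := by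
  obtain ⟨Z, h1, h2⟩ := exists_inv h
  have e1 : Z + X * Y * Z = 1 := by rwa [add_mul, one_mul] at h1
  have e2 : Z + Z * (X * Y) = 1 := by rwa [mul_add, mul_one] at h2
  have f1 : X * Y * Z = 1 - Z := eq_sub_of_add_eq' e1
  have f2 : Z * (X * Y) = 1 - Z := eq_sub_of_add_eq' e2
  refine isUnit_of_mul (β := 1 - Y * Z * X) ?_ ?_
  · have : (1 + Y * X) * (1 - Y * Z * X) = 1 + Y * X - Y * Z * X - Y * (X * Y * Z) * X := by
      rw [Matrix.add_mul, Matrix.mul_sub, Matrix.mul_sub, Matrix.one_mul, Matrix.one_mul,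
        Matrix.mul_one]
      simp only [Matrix.mul_assoc]
      abel
    rw [this, f1]
    simp only [Matrix.mul_sub, Matrix.sub_mul, Matrix.mul_one]
    abel
  · have : (1 - Y * Z * X) * (1 + Y * X) = 1 + Y * X - Y * Z * X - Y * (Z * (X * Y)) * X := by
      rw [Matrix.sub_mul, Matrix.mul_add, Matrix.mul_add, Matrix.one_mul, Matrix.one_mul,
        Matrix.mul_one]
      simp only [Matrix.mul_assoc]
      abel
    rw [this, f2]
    simp only [Matrix.mul_sub, Matrix.sub_mul, Matrix.mul_one]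
    abel

/-- `1 + XY` and `1 + YX` have the same class. -/
theorem Det1.one_add_swap (χ : Det1 E M) {X : Matrix ι κ E} {Y : Matrix κ ι E}
    (h : IsUnit (1 + X * Y)) : χ.val (1 + Y * X) = χ.val (1 + X * Y) := by
  have h' := isUnit_one_add_swap h
  -- `[1, -X; 0, 1] [1, X; -Y, 1] [1, 0; Y, 1] = diag (1 + X Y, 1)` and
  -- `[1, 0; Y, 1] [1, X; -Y, 1] [1, -X; 0, 1] = diag (1, 1 + Y X)`.
  have e1 : fromBlocks (1 + X * Y) 0 0 (1 : Matrix κ κ E) =
      fromBlocks 1 (-X) 0 1 * (fromBlocks 1 X (-Y) 1 * fromBlocks 1 0 Y 1) := by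
    rw [Matrix.fromBlocks_multiply, Matrix.fromBlocks_multiply]
    simp
  have e2 : fromBlocks (1 : Matrix ι ι E) 0 0 (1 + Y * X) =
      fromBlocks 1 0 Y 1 * (fromBlocks 1 X (-Y) 1 * fromBlocks 1 (-X) 0 1) := by
    rw [Matrix.fromBlocks_multiply, Matrix.fromBlocks_multiply]
    simp [add_comm]
  have hu : IsUnit (fromBlocks 1 X (-Y) 1 : Matrix (ι ⊕ κ) (ι ⊕ κ) E) := by
    have h1 : IsUnit (fromBlocks (1 + X * Y) 0 0 (1 : Matrix κ κ E)) :=
      isUnit_blocks h isUnit_one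
    rw [e1] at h1
    have h2 := (isUnit_upper (κ := κ) (-X)).mul_left_iff.1 h1
    exact (isUnit_lower (ι := ι) Y).mul_right_iff.1 h2
  have a1 := congrArg χ.val e1
  have a2 := congrArg χ.val e2
  rw [χ.mul _ _ (isUnit_upper _) (hu.mul (isUnit_lower _)), χ.mul _ _ hu (isUnit_lower _),
    χ.upper, χ.lower, χ.val_blocks_one h] at a1
  rw [χ.mul _ _ (isUnit_lower _) (hu.mul (isUnit_upper _)), χ.mul _ _ hu (isUnit_upper _),
    χ.upper, χ.lower, χ.val_one_blocks h'] at a2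
  rw [a1, a2]

end

end Pool.Agent.NegK
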